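import Pool.Agent.Helper55_CD.Stmts
import Pool.Agent.Helper92_CD.All2

/-!
# The sign of the Euler characteristic of nonpositively curved cubical manifolds

Let `M` be a closed aspherical manifold of dimension `2 k`.  The Singer conjecture for `M` implies
that `(-1) ^ k` times the Euler characteristic of `M` is the middle `L²`-Betti number of its
universal covering, so that it is at least zero.

We prove this inequality for all closed manifolds which are cubical complexes of nonpositive
curvature, in all dimensions, and more generally for all finite cubical complexes of nonpositive
curvature which are homology manifolds over the field with two elements.  (They are aspherical by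
the theorem of Cartan and Hadamard in the version of Gromov.)
-/

namespace Pool.Agent.Results.MP_f80465_gt.EulerSign

open Pool.Agent.CD.H55 Pool.Agent.Sph

open Classical in
/-- Let `𝒦` be a finite cubical complex of nonpositive curvature in which the link of every vertex
is a generalized homology sphere of dimension `2 k - 1` over the field with two elements.  Then
`(-1) ^ k` times the Euler characteristic of `𝒦` is at least zero. -/
theorem result {X : Type} [Fintype X] {𝒦 : CubicalComplex X} {k : ℕ} (h : 𝒦.Nonpositive)
    (hs : ∀ x, HomologySphere (𝒦.linkGraph x) (2 * k)) : 0 ≤ (-1) ^ k * 𝒦.euler := by
  exact Pool.Agent.CD.H92.t_cub X 𝒦 k h hs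

end Pool.Agent.Results.MP_f80465_gt.EulerSign
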