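import Pool.Agent.Helper35_HKN.Top

/-!
# The `L²`-Betti numbers of group extensions

An upper bound for the `L²`-Betti numbers of an extension of groups of type `F` by the
`L²`-Betti numbers of the kernel and the quotient, if the quotient is virtually locally indicable
or the groups are residually finite.  In particular the Singer conjecture for the total space of a
bundle of closed aspherical manifolds follows from that for the fibre and the base.
-/

namespace Pool.Agent.Results.MP_f80465_gt.ExtensionInequality

open Pool.Agent.Glue Pool.Agent.FB Pool.Agent.HKN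

theorem result {N Γ Q : Type} [Group N] [Group Γ] [Group Q] (ι : N →* Γ) (π : Γ →* Q)
    (hι : Function.Injective ι) (hex : ι.range = π.ker) (hπ : Function.Surjective π)
    (hQ : (Group.ResiduallyFinite Γ ∧ Group.ResiduallyFinite Q) ∨
      EXL.VirtuallyLocallyIndicable Q)
    {I J K : Type} [Fintype I] [Fintype J] [Fintype K]
    (C : Cells Γ I) (D : Cells N J) (E : Cells Q K)
    (hC : Aspherical C) (hD : Aspherical D) (hE : Aspherical E) :
    (∀ n, betti C n ≤ ∑ i ∈ Finset.range (n + 1), betti E i * betti D (n - i)) ∧
    ∀ f b : ℕ, (∀ j, 2 * j ≠ f → betti D j = 0) → (∀ i, 2 * i ≠ b → betti E i = 0) →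
      ∀ n, 2 * n ≠ f + b → betti C n = 0 := by
  have h := fun n => All.t_ext2 N Γ Q ι π hι hex hπ hQ I J K C D E hC hD hE n
  refine ⟨h, fun f b hD' hE' n hn => le_antisymm ((h n).trans (le_of_eq ?_)) ?_⟩
  · refine Finset.sum_eq_zero fun i hi => ?_
    rw [Finset.mem_range] at hi
    by_cases hb : 2 * i = b
    · rw [hD' (n - i) (by omega), mul_zero]
    · rw [hE' i hb, zero_mul]
  · unfold betti
    positivity

end Pool.Agent.Results.MP_f80465_gt.ExtensionInequality
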