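import Pool.Agent.Helper30_Sph.Defs
import Pool.Agent.Helper30_Sph.Main

/-!
# The Singer conjecture for barycentric subdivisions of all spheres, in all dimensions

Let `P` be a finite partially ordered set whose order complex `L` (the flag complex of the
comparability graph) is a generalized homology sphere of dimension `n - 1` over the field with two
elements; for example `P` is the set of simplices of any triangulation of the sphere of dimension
`n - 1`, and `L` is the barycentric subdivision.  Let `W` be the right-angled Coxeter group with
nerve `L`.  The Davis complex of `W` is a contractible homology manifold of dimension `n` (a
manifold if `L` is a triangulated sphere whose links are spheres), on which `W` acts properly and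
cocompactly, and its quotients by torsion-free subgroups of finite index are closed and aspherical.

We prove the Singer conjecture for them: the reduced square-summable homology of the Davis complex
of `W` vanishes in all degrees different from `n / 2`, in all dimensions `n`.
-/

namespace Pool.Agent.Results.MP_f80465_gt.HomologySpheres

open Pool.Agent.Davis Pool.Agent.Sph

/-- Let `P` be a finite partially ordered set whose order complex is a generalized homology sphere
of dimension `n - 1` over the field with two elements.  For the right-angled Coxeter group of the
comparability graph of `P`, the reduced square-summable homology of the Davis complex vanishes in
all degrees different from `n / 2`, and the same holds for the links of all chains `T`, in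
dimension `n - |T|`. -/
theorem result {P : Type} [PartialOrder P] [Fintype P] {n : ℕ}
    (h : HomologySphere (comparability P) n) :
    Singer (comparability P) n ∧ Hereditary (comparability P) n :=
  ⟨order_singer h, order_hereditary h⟩

end Pool.Agent.Results.MP_f80465_gt.HomologySpheres
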