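import Pool.Agent.Helper78_Hyp.Defs
import Pool.Agent.Helper78_Hyp.All

/-!
# The Singer conjecture for hyperbolizations of all triangulated manifolds, in all dimensions

Let `T` be a finite simplicial complex that is a homology manifold of dimension `n` over the field
with two elements; for example `T` is any triangulation of a closed manifold.  Gromov's
hyperbolization procedure (each cube `C` of the cubical subdivision of `T` is replaced, by induction
on its dimension, by the quotient of the product of the hyperbolization of its boundary and an
interval by an involution) yields a cube complex of nonpositive curvature, hence aspherical.  The
link of its vertex `σ` is the barycentric subdivision of the join of the boundary of `σ` and the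
link of `σ` in `T`; so it is a closed manifold of dimension `n` if `T` is one.  In coordinates it
is the cube complex `hyp T`.

We prove the Singer conjecture for all these manifolds: the reduced square-summable homology of the
universal covering vanishes in all degrees different from `n / 2`.
-/

namespace Pool.Agent.Results.MP_f80465_gt.HyperbolizedManifolds

open Pool.Agent.Special Pool.Agent.Hyp

/-- Let `T` be a finite simplicial complex that is a homology manifold of dimension `n` over the
field with two elements.  Then the reduced square-summable homology of the universal covering of
the hyperbolization `hyp T` vanishes in all degrees different from `n / 2`. -/
theorem result {U : Type} [Fintype U] (T : PreAbstractSimplicialComplex U) [Fintype T.faces]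
    {n : ℕ} (h : HomologyManifold T n) :
    ∀ i : ℕ, 2 * i ≠ n → HomologyVanishes (hyp T) i :=
  fun _ hi => hyp_singer_manifold h hi

end Pool.Agent.Results.MP_f80465_gt.HyperbolizedManifolds
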