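import Pool.Agent.Helper30_Cube.Defs
import Pool.Agent.Helper30_Cube.Bridge

/-!
# A local bound for the square-summable Betti numbers of special cube complexes

Let `X` be a finite special cube complex.  We show that every square-summable Betti number of the
universal covering of `X` is at most the sum, over the vertices `v` of `X`, of the corresponding
square-summable Betti numbers of the right-angled Coxeter groups whose nerves are the links of the
vertices `v`.

Consequently, if `X` is a closed aspherical manifold, the Singer conjecture for `X` follows from the
Singer conjecture for the right-angled Coxeter groups given by its vertex links, which are flag
triangulations of (homology) spheres.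
-/

namespace Pool.Agent.Helper30Moved.LocalBound

open Pool.Agent.Special
open Classical

/-- The local bound: the square-summable Betti numbers of a special cube complex are at most the
sums over the vertices of those of the right-angled Coxeter groups of the vertex links.  In
particular the reduced square-summable homology vanishes in degree `i` if that of the Davis
complexes of all vertex links vanishes in degree `i`. -/
theorem result {A V : Type} [Fintype A] [Fintype V] {Γ : SimpleGraph A} (X : CubeComplex Γ V)
    (i : ℕ) :
    (∀ r : A → ℕ, Function.Injective r →
      betti X r i ≤ ∑ v, betti (davis (X.link v)) (fun a => r a.1) i) ∧
    ((∀ v, HomologyVanishes (davis (X.link v)) i) → HomologyVanishes X i) :=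
  ⟨fun _ hr => local_betti X hr i, local_vanish X i⟩

end Pool.Agent.Helper30Moved.LocalBound
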