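import Pool.Agent.Helper30_Poly.Defs
import Pool.Agent.Helper30_Poly.Polytope

/-!
# The Singer conjecture for barycentric subdivisions of boundaries of convex polytopes

Let `P` be a convex polytope of dimension `n`.  The comparability graph of its proper faces defines
a right-angled Coxeter group `W`, whose nerve is the barycentric subdivision of the boundary complex
of `P`, a triangulation of the sphere of dimension `n - 1`.  The Davis complex of `W` is a
contractible manifold of dimension `n`, on which `W` acts properly and cocompactly, and its
quotients by torsion-free subgroups of finite index are closed aspherical manifolds of dimension
`n`.

We prove the Singer conjecture for all these manifolds: the reduced square-summable homology of the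
Davis complex of `W` vanishes in all degrees different from `n / 2`, for every convex polytope and
in all dimensions `n`.
-/

namespace Pool.Agent.Helper30Moved.PolytopeBoundaries

open Pool.Agent.Davis Pool.Agent.Poly

/-- Let `P` be the convex hull of a finite set, with nonempty interior, in a real vector space of
dimension `n`.  For the right-angled Coxeter group of the comparability graph of the proper faces
of `P`, the reduced square-summable homology of the Davis complex vanishes in all degrees different
from `n / 2`, and the same holds for the links of all flags `T` of proper faces, in dimension
`n - |T|`. -/
theorem result {E : Type} [NormedAddCommGroup E] [NormedSpace ℝ E] [FiniteDimensional ℝ E]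
    {P : Set E} (hP : ∃ s : Finset E, P = convexHull ℝ (s : Set E))
    (hint : (interior P).Nonempty) [Fintype (ProperFace P)] :
    Singer (faceGraph P) (Module.finrank ℝ E) ∧ Hereditary (faceGraph P) (Module.finrank ℝ E) :=
  ⟨polytope_singer hP hint, polytope_hereditary hP hint⟩

end Pool.Agent.Helper30Moved.PolytopeBoundaries
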