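import Pool.Agent.Helper30_Sph.Defs
import Pool.Agent.Helper30_CD.Ra

/-!
# The Singer conjecture for right-angled Coxeter groups

Let `Γ` be a finite graph and `L` its flag complex: the simplices are the cliques of `Γ`.  Suppose
that `L` is a generalized homology sphere of dimension `n - 1` over the field with two elements; for
example `L` is any flag triangulation of the sphere of dimension `n - 1`.  Let `W` be the
right-angled Coxeter group with nerve `L`.  The Davis complex of `W` is a contractible homology
manifold of dimension `n`, on which `W` acts properly and cocompactly, and its quotients by
torsion-free subgroups of finite index are closed and aspherical.  If `L` is a triangulation of the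
sphere of dimension `n - 1`, then these quotients are manifolds (the manifolds of Davis).

We prove the Singer conjecture for them, in all dimensions: the reduced square-summable homology of
the Davis complex of `W` vanishes in all degrees different from `n / 2`.
-/

namespace Pool.Agent.Results.MP_f80465_gt.RightAngled

open Pool.Agent.Davis Pool.Agent.Sph

/-- Let `Γ` be a finite graph whose flag complex is a generalized homology sphere of dimension
`n - 1` over the field with two elements.  The reduced square-summable homology of the Davis complex
of the right-angled Coxeter group of `Γ` vanishes in all degrees different from `n / 2`. -/
theorem result {V : Type} [Fintype V] {Γ : SimpleGraph V} {n : ℕ} (h : HomologySphere Γ n) :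
    Singer Γ n :=
  Pool.Agent.CD.H30.singer h

end Pool.Agent.Results.MP_f80465_gt.RightAngled
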