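import Pool.Agent.Helper30_Sph.Defs
import Pool.Agent.Helper30_Sph.Main

/-!
# The van Kampen obstruction and square-summable homology

Let `L` be a finite flag complex of dimension `k` and `W` the right-angled Coxeter group with nerve
`L`.  If `L` embeds into the sphere of dimension `2 k` (for `k ≠ 2` this is the vanishing of the van
Kampen obstruction), then `W` acts properly on a contractible manifold of dimension `2 k + 1`, and
the Singer conjecture for the closed aspherical manifolds of dimension `2 k + 1` that contain the
quotients predicts that the square-summable homology of the Davis complex of `W` vanishes in the top
degree `k + 1`.  We prove this prediction for all balanced complexes `L` (for example barycentric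
subdivisions) and in all dimensions: it suffices that the van Kampen obstruction modulo two is zero.
-/

namespace Pool.Agent.Helper30Moved.VanKampen

open Pool.Agent.Davis Pool.Agent.Sph

/-- Let `Γ` be a finite graph with a proper colouring with `k + 1` colours, whose flag complex (of
dimension at most `k`) has zero van Kampen obstruction modulo two.  Then the square-summable
homology of the Davis complex of the right-angled Coxeter group of `Γ` vanishes in degree
`k + 1`. -/
theorem result {V : Type} [LinearOrder V] [Fintype V] {Γ : SimpleGraph V} {k : ℕ}
    (c : V → Fin (k + 1)) (hc : ∀ v w, Γ.Adj v w → c v ≠ c w) (h : VanKampenZero Γ k) :
    HomologyVanishes Γ (k + 1) :=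
  balanced_vanishes c hc h

end Pool.Agent.Helper30Moved.VanKampen
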